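import Pool.Agent.H578R3.MomA

/-!
# Operators with the traces of a rational combination of projectors
-/

open Polynomial Finset TensorProduct

namespace Pool.Agent.TH19.KM

open Pool.Agent.H914 Pool.Agent.H447 Pool.Agent.H578R3.Mom

section

variable {K : Type*} [Field K] {V : Type*} [AddCommGroup V] [Module K V]

lemma trace_poly' {T H : Module.End K V}
    (h : ∀ k : ℕ, LinearMap.trace K V (T ^ k * T) = LinearMap.trace K V (T ^ k * H))
    (p : K[X]) :
    LinearMap.trace K V (aeval T p * T) = LinearMap.trace K V (aeval T p * H) := by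
  induction p using Polynomial.induction_on' with
  | add p q hp hq => rw [map_add, add_mul, map_add, hp, hq, add_mul, map_add]
  | monomial k c =>
    have e : ∀ x : Module.End K V, (algebraMap K (Module.End K V) c) * x = c • x :=
      fun x => (Algebra.smul_def c x).symm
    rw [aeval_monomial, e, smul_mul_assoc, smul_mul_assoc, map_smul, map_smul, h]

end

variable {K : Type*} [Field K] [CharZero K] {V : Type*} [AddCommGroup V] [Module K V]
  [Module.Finite K V]

/-- The square of the difference with a rational combination of projectors, over an algebraically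
closed field. -/
theorem sq_closed' [IsAlgClosed K] {P : ℕ → Module.End K V} {m : ℕ} (hP : ProjSys P m)
    (lam : ℕ → ℚ) {T H : Module.End K V} (hT : ∀ i, Commute T (P i))
    (hH : H = ∑ i ∈ range m, (lam i : K) • P i)
    (h1 : ∀ k : ℕ, LinearMap.trace K V (T ^ k * T) = LinearMap.trace K V (T ^ k * H)) :
    ∃ q : ℚ, 0 ≤ q ∧ LinearMap.trace K V ((T - H) * (T - H)) = q ∧
      (q = 0 → IsNilpotent (T - H)) := by
  classical
  obtain ⟨s, E, N, hEp, hE1, hEE, hEN⟩ := exists_spectral T
  have hTE : ∀ ν, Commute T (E ν) := by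
    intro ν
    obtain ⟨p, hp⟩ := hEp ν
    rw [hp]; exact comm_aeval (Commute.refl T) p
  have hPE : ∀ i ν, Commute (P i) (E ν) := by
    intro i ν
    obtain ⟨p, hp⟩ := hEp ν
    rw [hp]; exact comm_aeval (hT i).symm p
  set r : K → ℕ → ℕ := fun ν i => Module.finrank K (LinearMap.range (P i * E ν)) with hr
  have hidem : ∀ ν ∈ s, ∀ i, P i * E ν * (P i * E ν) = P i * E ν := by
    intro ν hν i
    calc P i * E ν * (P i * E ν) = P i * (E ν * P i) * E ν := by simp only [mul_assoc]
      _ = (P i * P i) * (E ν * E ν) := by rw [← (hPE i ν).eq]; simp only [mul_assoc]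
      _ = P i * E ν := by rw [hP.idem, hEE ν hν]
  have htr : ∀ ν ∈ s, ∀ i, LinearMap.trace K V (P i * E ν) = (r ν i : K) := fun ν hν i =>
    trace_idem (hidem ν hν i)
  have hHP : ∀ i ∈ range m, H * P i = (lam i : K) • P i := by
    intro i hi
    rw [hH, Finset.sum_mul, Finset.sum_eq_single i]
    · rw [smul_mul_assoc, hP.idem]
    · intro j _ hj
      rw [smul_mul_assoc, hP.orth j i hj, smul_zero]
    · intro h; exact absurd hi h
  have hcP : ∀ i ∈ range m, (T - H) * P i = (T - algebraMap K (Module.End K V) (lam i)) * P i := by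
    intro i hi
    rw [sub_mul, hHP i hi, sub_mul, ← Algebra.smul_def]
  have hB : ∀ ν ∈ s, ∀ i ∈ range m, LinearMap.trace K V ((T - H) * (T - H) * (P i * E ν)) =
      (ν - lam i) ^ 2 * (r ν i : K) := by
    intro ν hν i hi
    set a : Module.End K V := algebraMap K (Module.End K V) (lam i) with ha
    have hca : ∀ x : Module.End K V, Commute a x := fun x => Algebra.commutes _ x
    have hcP' : (T - a) * P i = P i * (T - a) :=
      (((hT i).sub_left (hca (P i))).eq)
    have e1 : (T - H) * (T - H) * (P i * E ν) = P i * (T - a) * ((T - a) * E ν) := by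
      calc (T - H) * (T - H) * (P i * E ν) = (T - H) * ((T - H) * P i) * E ν := by
            simp only [mul_assoc]
        _ = (T - H) * (P i * (T - a)) * E ν := by rw [hcP i hi, hcP']
        _ = ((T - H) * P i) * (T - a) * E ν := by simp only [mul_assoc]
        _ = P i * (T - a) * ((T - a) * E ν) := by rw [hcP i hi, hcP']; simp only [mul_assoc]
    have hS : Commute (P i * (T - a)) T :=
      (hT i).symm.mul_left ((Commute.refl T).sub_left (hca T))
    have hS' : Commute (P i * (T - a)) (E ν) :=
      (hPE i ν).mul_left ((hTE ν).sub_left (hca (E ν)))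
    have e2 : ∀ S : Module.End K V, Commute S T → Commute S (E ν) →
        LinearMap.trace K V (S * ((T - a) * E ν)) = (ν - lam i) * LinearMap.trace K V (S * E ν) := by
      intro S h3 h4
      rw [sub_mul, mul_sub, map_sub, trace_spectral h3 h4 (hTE ν) (hEN ν hν), ha,
        ← Algebra.smul_def, mul_smul_comm, map_smul, smul_eq_mul, sub_mul]
    rw [e1, e2 _ hS hS', mul_assoc (P i), e2 _ (hT i).symm (hPE i ν), htr ν hν i]
    ring
  have hdecomp : ∀ x : Module.End K V, x = ∑ ν ∈ s, ∑ i ∈ range m, x * (P i * E ν) := by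
    intro x
    conv_lhs => rw [← mul_one x, ← hE1, Finset.mul_sum]
    apply Finset.sum_congr rfl
    intro ν _
    conv_lhs => rw [← one_mul (E ν), ← hP.sum, Finset.sum_mul, Finset.mul_sum]
  have hC : LinearMap.trace K V ((T - H) * (T - H)) =
      ∑ ν ∈ s, ∑ i ∈ range m, (ν - lam i) ^ 2 * (r ν i : K) := by
    rw [hdecomp ((T - H) * (T - H)), map_sum]
    apply Finset.sum_congr rfl
    intro ν hν
    rw [map_sum]
    exact Finset.sum_congr rfl (fun i hi => hB ν hν i hi)
  -- rationality
  have hrat : ∀ ν, ∃ q : ℚ, ν ∈ s → ∀ i, r ν i ≠ 0 → ν = q := by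
    intro ν
    by_cases hν : ν ∈ s ∧ E ν ≠ 0
    · obtain ⟨hνs, hne⟩ := hν
      set d : ℕ := Module.finrank K (LinearMap.range (E ν)) with hd
      have hd0 : d ≠ 0 := by
        intro h6
        apply hne
        apply eq_zero_of_idem_of_trace_eq_zero (hEE ν hνs)
        rw [trace_idem (hEE ν hνs), ← hd, h6, Nat.cast_zero]
      have e1 : LinearMap.trace K V (E ν * T) = ν * (d : K) := by
        have e3 := trace_spectral (S := (1 : Module.End K V)) (Commute.one_left T)
          (Commute.one_left (E ν)) (hTE ν) (hEN ν hνs)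
        rw [one_mul, one_mul, trace_idem (hEE ν hνs)] at e3
        rw [← (hTE ν).eq, e3]
      have e2 : LinearMap.trace K V (E ν * H) = ∑ i ∈ range m, (lam i : K) * (r ν i : K) := by
        rw [hH, Finset.mul_sum, map_sum]
        apply Finset.sum_congr rfl
        intro i _
        rw [mul_smul_comm, map_smul, ← (hPE i ν).eq, htr ν hνs i, smul_eq_mul]
      obtain ⟨p, hp⟩ := hEp ν
      have e3 := trace_poly' h1 p
      rw [← hp, e1, e2] at e3
      refine ⟨(∑ i ∈ range m, lam i * (r ν i : ℚ)) / d, fun _ _ _ => ?_⟩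
      have hd' : (d : K) ≠ 0 := by exact_mod_cast hd0
      push_cast
      rw [eq_div_iff hd', e3]
    · refine ⟨0, fun hνs i hri => ?_⟩
      exfalso
      apply hri
      have hE0 : E ν = 0 := by
        by_contra h2
        exact hν ⟨hνs, h2⟩
      rw [hr]
      beta_reduce
      rw [hE0, mul_zero, LinearMap.range_zero, finrank_bot]
  choose q hqν using hrat
  have hterm : ∀ ν ∈ s, ∀ i ∈ range m, (ν - lam i) ^ 2 * (r ν i : K) =
      (((q ν - lam i) ^ 2 * (r ν i : ℚ) : ℚ) : K) := by
    intro ν hν i hi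
    by_cases h0 : r ν i = 0
    · rw [h0]; simp
    · push_cast
      rw [← hqν ν hν i h0]
  have hnn : ∀ ν i, 0 ≤ (q ν - lam i) ^ 2 * (r ν i : ℚ) := fun ν i => by positivity
  refine ⟨∑ ν ∈ s, ∑ i ∈ range m, (q ν - lam i) ^ 2 * (r ν i : ℚ),
    Finset.sum_nonneg (fun ν _ => Finset.sum_nonneg (fun i _ => hnn ν i)), ?_, ?_⟩
  · rw [hC, Rat.cast_sum]
    apply Finset.sum_congr rfl
    intro ν hν
    rw [Rat.cast_sum]
    exact Finset.sum_congr rfl (fun i hi => hterm ν hν i hi)
  intro hD
  have hE : ∀ ν ∈ s, ∀ i ∈ range m, r ν i = 0 ∨ ν = lam i := by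
    intro ν hν i hi
    by_cases h0 : r ν i = 0
    · exact Or.inl h0
    · right
      have h3 := (Finset.sum_eq_zero_iff_of_nonneg (fun ν _ => Finset.sum_nonneg
        (fun i _ => hnn ν i))).1 hD ν hν
      have h4 := (Finset.sum_eq_zero_iff_of_nonneg (fun i _ => hnn ν i)).1 h3 i hi
      have h5 : (q ν - lam i) ^ 2 = 0 := (mul_eq_zero.1 h4).resolve_right (by exact_mod_cast h0)
      have h6 : q ν = lam i := by
        have := pow_eq_zero_iff (two_ne_zero) |>.1 h5
        linarith
      rw [hqν ν hν i h0, h6]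
  refine ⟨N, ?_⟩
  rw [hdecomp ((T - H) ^ N)]
  apply Finset.sum_eq_zero
  intro ν hν
  apply Finset.sum_eq_zero
  intro i hi
  rcases hE ν hν i hi with h0 | h0
  · have : P i * E ν = 0 := by
      apply eq_zero_of_idem_of_trace_eq_zero (hidem ν hν i)
      rw [htr ν hν i, h0, Nat.cast_zero]
    rw [this, mul_zero]
  · have hpow : ∀ k : ℕ, (T - H) ^ k * P i = (T - algebraMap K (Module.End K V) ν) ^ k * P i := by
      intro k
      induction k with
      | zero => simp
      | succ k ih =>
        have hc : (T - algebraMap K (Module.End K V) ν) * P i =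
            P i * (T - algebraMap K (Module.End K V) ν) :=
          ((hT i).sub_left (Algebra.commutes ν (P i))).eq
        rw [pow_succ, mul_assoc, hcP i hi, ← h0, hc, ← mul_assoc, ih, pow_succ, mul_assoc,
          mul_assoc, hc]
    rw [← mul_assoc, hpow, mul_assoc, (hPE i ν).eq, ← mul_assoc, hEN ν hν, zero_mul]

/-- **The spectral argument.** If the powers of `T` have the same traces against `T` and against the
rational combination `H` of orthogonal projectors commuting with `T`, then the trace of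
`(T - H) ^ 2` is a rational number `q ≥ 0`, and `q = 0` only if `T - H` is nilpotent. -/
theorem sq_of_traces' {P : ℕ → Module.End K V} {m : ℕ} (hP : ProjSys P m)
    (lam : ℕ → ℚ) {T H : Module.End K V} (hT : ∀ i, Commute T (P i))
    (hH : H = ∑ i ∈ range m, (lam i : K) • P i)
    (h1 : ∀ k : ℕ, LinearMap.trace K V (T ^ k * T) = LinearMap.trace K V (T ^ k * H)) :
    ∃ q : ℚ, 0 ≤ q ∧ LinearMap.trace K V ((T - H) * (T - H)) = q ∧
      (q = 0 → IsNilpotent (T - H)) := by
  set Kb := AlgebraicClosure K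
  obtain ⟨q, hq0, hq, hnil⟩ := sq_closed' (K := Kb) (V := Kb ⊗[K] V)
    (P := fun i => (P i).baseChange Kb) (m := m)
    ⟨fun i => by rw [← bc_mul, hP.idem], fun i j hij => by rw [← bc_mul, hP.orth i j hij, bc_zero],
      by
        have := congrArg (fun F => Module.End.baseChangeHom K Kb V F) hP.sum
        rw [map_sum, map_one] at this
        exact this⟩ lam (T := T.baseChange Kb) (H := H.baseChange Kb)
    (fun i => by
      have := (hT i).eq
      rw [Commute, SemiconjBy, ← bc_mul, ← bc_mul, this])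
    (by
      have h3 := congrArg (fun F => Module.End.baseChangeHom K Kb V F) hH
      rw [map_sum] at h3
      refine h3.trans (Finset.sum_congr rfl (fun i _ => ?_))
      have h4 := bc_smul Kb ((lam i : K)) (P i)
      rw [map_ratCast] at h4
      exact h4)
    (fun k => by
      rw [← bc_pow, ← bc_mul, ← bc_mul]
      have h3 := LinearMap.trace_baseChange (T ^ k * T) Kb
      have h4 := LinearMap.trace_baseChange (T ^ k * H) Kb
      rw [h3, h4, h1 k])
  refine ⟨q, hq0, ?_, fun h0 => ?_⟩
  · rw [← bc_sub, ← bc_mul] at hq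
    have h3 := LinearMap.trace_baseChange ((T - H) * (T - H)) Kb
    rw [h3] at hq
    apply (algebraMap K Kb).injective
    rw [hq, map_ratCast]
  · obtain ⟨N, hN⟩ := hnil h0
    refine ⟨N, bc_inj Kb ?_⟩
    rw [bc_pow, bc_sub, hN, bc_zero]

/-- A rational polynomial with prescribed rational values to a given order. -/
lemma exists_poly_values (N : ℕ) (s : Finset ℚ) :
    ∃ g : ℚ[X], ∀ a ∈ s, (X - C a) ^ N ∣ g - C a := by
  classical
  have hH : ∀ a ∈ s, ∃ H : ℚ[X], (X - C a) ^ N ∣ H - 1 ∧ ∀ b ∈ s, b ≠ a → (X - C b) ^ N ∣ H := by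
    intro a _
    have hcop : IsCoprime ((X - C a) ^ N) (∏ b ∈ s.erase a, (X - C b) ^ N) := by
      apply IsCoprime.prod_right
      intro b hb
      apply IsCoprime.pow
      exact Polynomial.isCoprime_X_sub_C_of_isUnit_sub
        (sub_ne_zero.2 (Finset.ne_of_mem_erase hb).symm).isUnit
    obtain ⟨u, v, huv⟩ := hcop
    refine ⟨v * ∏ b ∈ s.erase a, (X - C b) ^ N, ⟨-u, ?_⟩, fun b hb hba => ?_⟩
    · linear_combination huv
    · exact Dvd.dvd.mul_left (Finset.dvd_prod_of_mem _ (Finset.mem_erase.2 ⟨hba, hb⟩)) _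
  have hH' : ∀ a, ∃ H : ℚ[X], a ∈ s → (X - C a) ^ N ∣ H - 1 ∧
      ∀ b ∈ s, b ≠ a → (X - C b) ^ N ∣ H := by
    intro a
    by_cases ha : a ∈ s
    · obtain ⟨H, hH⟩ := hH a ha
      exact ⟨H, fun _ => hH⟩
    · exact ⟨0, fun h => absurd h ha⟩
  choose H hH using hH'
  refine ⟨∑ a ∈ s, C a * H a, fun a ha => ?_⟩
  rw [← Finset.add_sum_erase _ _ ha]
  have e : C a * H a + ∑ b ∈ s.erase a, C b * H b - C a =
      C a * (H a - 1) + ∑ b ∈ s.erase a, C b * H b := by ring
  rw [e]
  apply dvd_add (Dvd.dvd.mul_left (hH a ha).1 _)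
  apply Finset.dvd_sum
  intro b hb
  exact Dvd.dvd.mul_left ((hH b (Finset.mem_of_mem_erase hb)).2 a ha
    (Finset.ne_of_mem_erase hb).symm) _

end Pool.Agent.TH19.KM
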