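import Pool.Agent.TH19.KM.A
import Pool.Agent.H578R3.MomB

/-!
# Algebras of operators and rational combinations of the projectors
-/

open Polynomial Finset

namespace Pool.Agent.TH19.KM

open Pool.Agent.H914 Pool.Agent.H447 Pool.Agent.H578R3.Mom

variable {K : Type*} [Field K] [CharZero K] {V : Type*} [AddCommGroup V] [Module K V]
  {gr : ℕ → Submodule K V} {n : ℕ} {R : ℤ → Module.End K V → Prop}

/-- The operator which acts as multiplication by `f j` on `gr j`. -/
noncomputable def fop (h : DirectSum.IsInternal gr) (f : ℕ → ℚ) : Module.End K V :=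
  scal h (fun j => (f j : K))

lemma comm_fop (h : DirectSum.IsInternal gr) (f : ℕ → ℚ) {y : Module.End K V}
    (hy : IsHom gr 0 y) : Commute y (fop h f) := by
  have := hy.scal_comm h (fun j => (f j.toNat : K)) (fun j => (f j.toNat : K)) (fun j => by simp)
  simp only [Int.toNat_natCast] at this
  exact this.symm

lemma fop_apply (h : DirectSum.IsInternal gr) (f : ℕ → ℚ) {j : ℕ} {a : V} (ha : a ∈ gr j) :
    fop h f a = (f j : K) • a := scal_apply h _ ha

/-- **The second moment.** -/
theorem moment_le [Module.Finite K V] (hR : OpAlg gr R) (h : DirectSum.IsInternal gr)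
    (hbd : ∀ i, 2 * n + 1 ≤ i → gr i = ⊥) (hpar : R 0 (par h)) (f : ℕ → ℚ)
    {T : Module.End K V} (hT : R 0 T)
    (hnum : ∀ y, R 0 y → LinearMap.trace K V (par h * (T * y)) =
      LinearMap.trace K V (par h * (fop h f * y))) :
    ∃ q : ℚ, 0 ≤ q ∧ LinearMap.trace K V (fop h f * fop h f) - LinearMap.trace K V (T * T) = q ∧
      (q = 0 → IsNilpotent (T - fop h f)) := by
  have hTh : IsHom gr 0 T := by simpa using hR.hom hT
  have hTk : ∀ k : ℕ, R 0 (T ^ k) := fun k => hR.cast (hR.pow hT k) (by simp)
  have hTpar : Commute T (par h) := (IsHom.par_comm (d := 0) h (by simpa using hTh)).symm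
  have hFpar : Commute (par h) (fop h f) := comm_fop h f (isHom_scal h _)
  have hstep : ∀ k : ℕ, LinearMap.trace K V (T ^ k * T) =
      LinearMap.trace K V (T ^ k * fop h f) := by
    intro k
    have h1 := hnum (par h * T ^ k) (hR.cast (hR.mul hpar (hTk k)) (by ring))
    have e1 : par h * (T * (par h * T ^ k)) = T ^ k * T := by
      calc par h * (T * (par h * T ^ k)) = par h * (T * par h) * T ^ k := by simp only [mul_assoc]
        _ = (par h * par h) * (T * T ^ k) := by rw [hTpar.eq]; simp only [mul_assoc]
        _ = T ^ k * T := by rw [par_mul_par, one_mul, ← pow_succ', pow_succ]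
    have e2 : par h * (fop h f * (par h * T ^ k)) = fop h f * T ^ k := by
      calc par h * (fop h f * (par h * T ^ k)) = (par h * fop h f) * par h * T ^ k := by
            simp only [mul_assoc]
        _ = fop h f * (par h * par h) * T ^ k := by rw [hFpar.eq]; simp only [mul_assoc]
        _ = fop h f * T ^ k := by rw [par_mul_par, mul_one]
    rw [e1, e2] at h1
    rw [h1, LinearMap.trace_mul_comm]
  obtain ⟨q, hq0, hq, hnil⟩ := sq_of_traces' (H := fop h f) (projSys h hbd) f
    (fun i => (hTh.proj_comm h i).symm) (scal_eq_sum h hbd _) hstep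
  refine ⟨q, hq0, ?_, hnil⟩
  rw [← hq]
  have e1 := hstep 1
  rw [pow_one] at e1
  have e2 : LinearMap.trace K V (fop h f * T) = LinearMap.trace K V (T * fop h f) :=
    LinearMap.trace_mul_comm K _ _
  rw [sub_mul, mul_sub, mul_sub, map_sub, map_sub, map_sub, e2, e1]
  ring

/-- If an element of the algebra differs from `fop h f` by a nilpotent operator then `fop h f` is in
the algebra. -/
theorem fop_mem_of_nilp (hR : OpAlg gr R) (h : DirectSum.IsInternal gr)
    (hbd : ∀ i, 2 * n + 1 ≤ i → gr i = ⊥) (f : ℕ → ℚ) {T : Module.End K V} (hT : R 0 T)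
    (hn : IsNilpotent (T - fop h f)) : R 0 (fop h f) := by
  obtain ⟨N, hN⟩ := hn
  set c := T - fop h f with hc
  have hTh : IsHom gr 0 T := by simpa using hR.hom hT
  have hch : IsHom gr 0 c := hTh.sub (isHom_scal h _)
  obtain ⟨g, hg⟩ := exists_poly_values N ((range (2 * n + 1)).image f)
  have hcm : ∀ j : ℕ, ∀ a ∈ gr j, c a ∈ gr j := by
    intro j a ha
    have h1 := hch j a (by rw [grZ_natCast]; exact ha)
    rw [add_zero, grZ_natCast] at h1
    exact h1
  have key : ∀ (r j : ℕ), ∀ a ∈ gr j, ev T ((X - C (f j)) ^ r) a = (c ^ r) a := by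
    intro r j
    induction r with
    | zero => intro a _; simp
    | succ r ih =>
      intro a ha
      rw [pow_succ, pow_succ, map_mul, Module.End.mul_apply, map_sub, ev_X, ev_C]
      have h1 : (T - ((f j : ℚ) : K) • (1 : Module.End K V)) a = c a := by
        rw [hc, LinearMap.sub_apply, LinearMap.sub_apply, fop_apply h f ha,
          LinearMap.smul_apply, Module.End.one_apply]
      rw [h1, ih _ (hcm j a ha), Module.End.mul_apply]
  have hFg : fop h f = ev T g := by
    apply gr_ext h
    intro j a ha
    rw [fop_apply h f ha]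
    by_cases hj : j < 2 * n + 1
    · obtain ⟨w, hw⟩ := hg (f j) (Finset.mem_image_of_mem f (Finset.mem_range.2 hj))
      have h2 : ev T (g - C (f j)) a = 0 := by
        rw [hw, mul_comm, map_mul, Module.End.mul_apply, key N j a ha, hN, LinearMap.zero_apply,
          map_zero]
      rw [map_sub, ev_C, LinearMap.sub_apply, LinearMap.smul_apply, Module.End.one_apply,
        sub_eq_zero] at h2
      exact h2.symm
    · rw [hbd j (by omega)] at ha
      rw [(Submodule.mem_bot _).1 ha, map_zero, smul_zero]
  rw [hFg]
  exact hR.ev hT g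

lemma ev_fop (h : DirectSum.IsInternal gr) (f : ℕ → ℚ) (g : ℚ[X]) {j : ℕ} {a : V}
    (ha : a ∈ gr j) : ev (fop h f) g a = ((g.eval (f j) : ℚ) : K) • a := by
  induction g using Polynomial.induction_on' with
  | add p q hp hq =>
    rw [map_add, LinearMap.add_apply, hp, hq, eval_add, Rat.cast_add, add_smul]
  | monomial r c =>
    have hpow : ∀ r : ℕ, (fop h f ^ r) a = (((f j) ^ r : ℚ) : K) • a := by
      intro r
      induction r with
      | zero => simp
      | succ r ih =>
        rw [pow_succ', Module.End.mul_apply, ih, map_smul, fop_apply h f ha, smul_smul,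
          ← Rat.cast_mul, ← pow_succ]
    rw [← C_mul_X_pow_eq_monomial, map_mul, map_pow, ev_C, ev_X, smul_mul_assoc, one_mul,
      LinearMap.smul_apply, hpow, smul_smul, ← Rat.cast_mul, eval_mul, eval_C, eval_pow, eval_X]

/-- The projectors from one operator with distinct eigenvalues. -/
theorem proj_mem_of_fop (hR : OpAlg gr R) (h : DirectSum.IsInternal gr)
    (hbd : ∀ i, 2 * n + 1 ≤ i → gr i = ⊥) {f : ℕ → ℚ}
    (hf : Set.InjOn f (range (2 * n + 1) : Set ℕ)) (hF : R 0 (fop h f)) (i : ℕ) :
    R 0 (proj h i) := by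
  by_cases hi : i < 2 * n + 1
  · have h1 : proj h i = ev (fop h f) (Lagrange.basis (range (2 * n + 1)) f i) := by
      apply gr_ext h
      intro j a ha
      rw [ev_fop h f _ ha]
      by_cases hij : j = i
      · subst hij
        rw [proj_same h ha, Lagrange.eval_basis_self hf (Finset.mem_range.2 hi), Rat.cast_one,
          one_smul]
      · rw [proj_ne h ha hij]
        by_cases hj : j < 2 * n + 1
        · rw [Lagrange.eval_basis_of_ne (Ne.symm hij) (Finset.mem_range.2 hj), Rat.cast_zero,
            zero_smul]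
        · rw [hbd j (by omega)] at ha
          rw [(Submodule.mem_bot _).1 ha, smul_zero]
    rw [h1]
    exact hR.ev hF _
  · have h1 : proj h i = 0 := by
      apply gr_ext h
      intro j a ha
      by_cases hij : j = i
      · subst hij
        rw [hbd j (by omega)] at ha
        rw [(Submodule.mem_bot _).1 ha, map_zero, map_zero]
      · rw [proj_ne h ha hij, LinearMap.zero_apply]
    rw [h1]
    exact hR.zero 0

lemma fop_mem_of_proj (hR : OpAlg gr R) (h : DirectSum.IsInternal gr)
    (hbd : ∀ i, 2 * n + 1 ≤ i → gr i = ⊥) (f : ℕ → ℚ) (hP : ∀ i, R 0 (proj h i)) :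
    R 0 (fop h f) := by
  rw [fop, scal_eq_sum h hbd]
  exact hR.sum (fun i _ => hR.smul _ (hP i))

/-- **Existence of a numerical form.** -/
theorem exists_form [Module.Finite K V] (hR : OpAlg gr R) (h : DirectSum.IsInternal gr)
    (hpar : R 0 (par h)) (f : ℕ → ℚ)
    (hratR : ∀ y, R 0 y → ∃ q : ℚ, LinearMap.trace K V (par h * y) = q)
    (hrat : ∀ y, R 0 y → ∃ q : ℚ, LinearMap.trace K V (par h * (fop h f * y)) = q) :
    ∃ T, R 0 T ∧ ∀ y, R 0 y → LinearMap.trace K V (par h * (T * y)) =
      LinearMap.trace K V (par h * (fop h f * y)) := by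
  classical
  obtain ⟨s, hs, hspan⟩ : ∃ s : Finset (Module.End K V), (s : Set (Module.End K V)) ⊆ {y | R 0 y} ∧
      Submodule.span K {y | R 0 y} = Submodule.span K (s : Set (Module.End K V)) := by
    have hfg : (Submodule.span K {y | R 0 y}).FG := IsNoetherian.noetherian _
    exact Submodule.fg_span_iff_fg_span_finset_subset _ |>.1 hfg
  set tr : Module.End K V →ₗ[K] K := LinearMap.trace K V ∘ₗ LinearMap.mulLeft K (par h) with htr
  have htr' : ∀ x, tr x = LinearMap.trace K V (par h * x) := fun x => rfl
  set F : Module.End K V → Module.End K V →ₗ[K] K := fun z =>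
    tr ∘ₗ LinearMap.mulLeft K z with hF
  have hF' : ∀ z x, F z x = tr (z * x) := fun z x => rfl
  set G : Module.End K V →ₗ[K] K := tr ∘ₗ LinearMap.mulLeft K (fop h f) with hG
  have hG' : ∀ x, G x = tr (fop h f * x) := fun x => rfl
  obtain ⟨c, hc⟩ := rep F G s (fun x => R 0 x) (fun x y hx hy => hR.add hx hy)
    (fun q x hx => hR.smul q hx)
    (by
      intro z hz x hx
      exact hratR (z * x) (hR.cast (hR.mul (hs hz) hx) (by ring)))
    (fun x hx => hrat x hx)
    (by
      intro x hx h0
      have hxh : IsHom gr 0 x := by simpa using hR.hom hx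
      have hxpar : Commute x (par h) := (IsHom.par_comm (d := 0) h (by simpa using hxh)).symm
      have hall : ∀ z, R 0 z → tr (z * x) = 0 := by
        intro z hz
        have hz' : z ∈ Submodule.span K (s : Set (Module.End K V)) := by
          rw [← hspan]; exact Submodule.subset_span hz
        clear hz
        induction hz' using Submodule.span_induction with
        | mem z hz => exact h0 z hz
        | zero => rw [zero_mul, map_zero]
        | add a b _ _ ha hb => rw [add_mul, map_add, ha, hb, add_zero]
        | smul a b _ hb => rw [smul_mul_assoc, map_smul, hb, smul_zero]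
      have hnil : IsNilpotent x := by
        apply isNilpotent_of_trace_pow
        intro k
        have h1 := hall (par h * x ^ k) (hR.cast (hR.mul hpar (hR.pow hx k)) (by simp))
        rw [htr', mul_assoc (par h), ← mul_assoc (par h) (par h), par_mul_par, one_mul,
          ← pow_succ] at h1
        exact h1
      have hcf : Commute x (par h * fop h f) := hxpar.mul_right (comm_fop h f hxh)
      have h2 := (LinearMap.isNilpotent_trace_of_isNilpotent
        (hcf.isNilpotent_mul_right hnil)).eq_zero
      rw [hG', htr', ← mul_assoc, ← hcf.eq]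
      exact h2)
  refine ⟨∑ i ∈ s, ((c i : ℚ) : K) • i, hR.sum (fun i hi => hR.smul (c i) (hs hi)), ?_⟩
  intro y hy
  have h1 := hc y hy
  rw [hG', htr'] at h1
  rw [h1, Finset.sum_mul, Finset.mul_sum, map_sum]
  apply Finset.sum_congr rfl
  intro i _
  rw [hF', htr', smul_mul_assoc, mul_smul_comm, map_smul, smul_eq_mul]

end Pool.Agent.TH19.KM
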