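import Pool.Agent.H447R3.KuDefs
import Pool.Agent.H578R3.MomDefs

/-!
# Second moments of Kunneth components: definitions
-/

open CategoryTheory AlgebraicGeometry

universe u v

namespace Pool.Agent.TH19.KM

section Alg

variable {K : Type*} [Field K] {V : Type*} [AddCommGroup V] [Module K V]

/-- The operator `F` acts as multiplication by the rational number `f j` on `gr j`. -/
def ActsBy (gr : ℕ → Submodule K V) (f : ℕ → ℚ) (F : Module.End K V) : Prop :=
  ∀ j, ∀ a ∈ gr j, F a = (f j : K) • a

/-- The sum of the numbers `f(j) ^ 2 * dim gr j` for `j = 0, ..., 2n`. -/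
noncomputable def momentSum (gr : ℕ → Submodule K V) (n : ℕ) (f : ℕ → ℚ) : ℚ :=
  ∑ j ∈ Finset.range (2 * n + 1), f j ^ 2 * Module.finrank K (gr j)

end Alg

open Pool.Agent.H914 VarClass Obj WeilCohomology Pool.Agent.H447 Pool.Agent.H578R3.Mom

variable {k : Type u} [Field k] {𝒱 : VarClass k} {ops : CycleOps 𝒱}

/-- `τ` is the combination `∑ f(j) π^j` of the Kunneth components of the diagonal of `X`: the class
of degree `2 dim X` on `X × X` which acts as multiplication by `f j` on `H^j(X)` for every `j`. -/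
def IsKunnethSum (W : WeilCohomology.{u, v} ops) (X : 𝒱.Obj) (f : ℕ → ℚ)
    (τ : W.H (X.prod X)) : Prop :=
  τ ∈ W.gr (X.prod X) (2 * X.dim) ∧ ActsBy (W.gr X) f (W.corr τ)

/-- The class `τ` on `Y` is the class of a cycle of codimension `p` with rational coefficients. -/
def IsAlgClass (W : WeilCohomology.{u, v} ops) (Y : 𝒱.Obj) (p : ℕ) (τ : W.H Y) : Prop :=
  ∃ z, Y.IsCyc p z ∧ W.cl Y z = τ

/-- The intersection numbers of the class `τ` on `Y` with the cycles of codimension `q` are
rational. -/
def HasRationalNumbers (W : WeilCohomology.{u, v} ops) (Y : 𝒱.Obj) (q : ℕ) (τ : W.H Y) : Prop :=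
  ∀ u, Y.IsCyc q u → ∃ r : ℚ, inter W Y τ (W.cl Y u) = r

/-- `z` is a numerical form of the class `τ` on `X × X`: a cycle of codimension `n = dim X` which
has the same intersection numbers as `τ` with all cycles of codimension `n`. -/
def IsNumForm (W : WeilCohomology.{u, v} ops) (X : 𝒱.Obj) (τ : W.H (X.prod X))
    (z : (X.prod X).Cycles) : Prop :=
  (X.prod X).IsCyc X.dim z ∧ NumRep W (X.prod X) X.dim z τ

/-- The trace of the correspondence `z ∘ z` on the whole cohomology of `X`. -/
noncomputable def squareTrace (W : WeilCohomology.{u, v} ops) (X : 𝒱.Obj)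
    (z : (X.prod X).Cycles) : W.K :=
  opTrace (W.corr (W.cl (X.prod X) (compCyc ops z z)))

/-- The sum of the numbers `f(j) ^ 2 b_j` for `j = 0, ..., 2 dim X`, with `b_j = dim H^j(X)`. -/
noncomputable def secondMoment (W : WeilCohomology.{u, v} ops) (X : 𝒱.Obj) (f : ℕ → ℚ) : ℚ :=
  momentSum (W.gr X) X.dim f

/-- The numbers `f(0), ..., f(2 dim X)` are different. -/
def DistinctUpTo (X : 𝒱.Obj) (f : ℕ → ℚ) : Prop :=
  Set.InjOn f (Finset.range (2 * X.dim + 1) : Set ℕ)

end Pool.Agent.TH19.KM
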