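import Pool.Agent.TH19.KM.B
import Pool.Agent.TH19.KM.Defs
import Pool.Agent.H578R3.MomC
import Pool.Agent.H447R3.KuB

/-!
# The second moment criterion for the Kunneth conjecture
-/

open CategoryTheory AlgebraicGeometry Finset

universe u v

namespace Pool.Agent.TH19.KM

open Pool.Agent.H914 VarClass Obj WeilCohomology Pool.Agent.H447 Pool.Agent.H578R3.Mom

variable {k : Type u} [Field k] {𝒱 : VarClass k} {ops : CycleOps 𝒱}
  {W : WeilCohomology.{u, v} ops} {X : 𝒱.Obj}

lemma corr_of_isKunnethSum {f : ℕ → ℚ} {τ : W.H (X.prod X)} (hτ : IsKunnethSum W X f τ) :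
    W.corr τ = fop (W.isInternal X) f := by
  apply gr_ext (W.isInternal X)
  intro j a ha
  rw [hτ.2 j a ha, fop_apply _ f ha]

lemma isAlgClass_iff {f : ℕ → ℚ} {τ : W.H (X.prod X)} (hτ : IsKunnethSum W X f τ) :
    IsAlgClass W (X.prod X) X.dim τ ↔ ROp W X 0 (fop (W.isInternal X) f) := by
  constructor
  · rintro ⟨z, hz, hzτ⟩
    rw [← corr_of_isKunnethSum hτ, ← hzτ]
    exact rop_corr (by simp) hz
  · intro hR
    obtain ⟨z, hz, hz'⟩ := exists_of_rop (p := X.dim) (by simp) hR
    refine ⟨z, hz, ?_⟩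
    rw [← sub_eq_zero]
    apply corr_inj
    rw [corr_sub', hz', corr_of_isKunnethSum hτ, sub_self]

lemma kunnethStd_iff {f : ℕ → ℚ} (hf : DistinctUpTo X f) :
    KunnethStd W X ↔ ROp W X 0 (fop (W.isInternal X) f) := by
  have hOA := rop_opAlg (W := W) (X := X)
  constructor
  · intro hK
    exact fop_mem_of_proj hOA (W.isInternal X) W_hbd f (kunneth_rop hK)
  · intro hF
    exact kunneth_of_rop (proj_mem_of_fop hOA (W.isInternal X) W_hbd hf hF)

lemma trace_fop_sq (W : WeilCohomology.{u, v} ops) (X : 𝒱.Obj) (f : ℕ → ℚ) :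
    LinearMap.trace W.K (W.H X) (fop (W.isInternal X) f * fop (W.isInternal X) f) =
      ((secondMoment W X f : ℚ) : W.K) := by
  rw [fop, scal_mul, trace_scal (W.isInternal X) W_hbd, secondMoment, momentSum]
  push_cast
  apply Finset.sum_congr rfl
  intro i _
  ring

lemma squareTrace_eq (W : WeilCohomology.{u, v} ops) {z : (X.prod X).Cycles}
    (hz : (X.prod X).IsCyc X.dim z) :
    squareTrace W X z = LinearMap.trace W.K (W.H X)
      (W.corr (W.cl _ z) * W.corr (W.cl _ z)) := by
  rw [squareTrace, corr_compCyc W hz]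
  rfl

/-- **The main step.** -/
theorem square_main (hS : SignStd W X) {f : ℕ → ℚ} {τ : W.H (X.prod X)}
    (hτ : IsKunnethSum W X f τ) {z : (X.prod X).Cycles} (hz : IsNumForm W X τ z) :
    ∃ q : ℚ, squareTrace W X z = q ∧ q ≤ secondMoment W X f ∧
      (ROp W X 0 (fop (W.isInternal X) f) ↔ q = secondMoment W X f) := by
  have hOA := rop_opAlg (W := W) (X := X)
  have hpar := par_rop_of_sign hS
  have hT : ROp W X 0 (W.corr (W.cl _ z)) := rop_corr (by simp) hz.1
  have hnum := (numRep_iff hz.1 hτ.1).1 hz.2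
  rw [corr_of_isKunnethSum hτ] at hnum
  obtain ⟨q, hq0, hq, hnil⟩ := moment_le hOA (W.isInternal X) W_hbd hpar f hT hnum
  rw [trace_fop_sq, ← squareTrace_eq W hz.1] at hq
  refine ⟨secondMoment W X f - q, ?_, by linarith, ?_⟩
  · push_cast
    linear_combination -hq
  constructor
  · intro hF
    have hFpar : Commute (par (W.isInternal X)) (fop (W.isInternal X) f) :=
      comm_fop _ f (isHom_scal _ _)
    set T := W.corr (W.cl _ z) with hTdef
    set F := fop (W.isInternal X) f with hFdef
    have hTh : IsHom (W.gr X) 0 T := by simpa using hOA.hom hT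
    have hTpar : Commute T (par (W.isInternal X)) :=
      (IsHom.par_comm (d := 0) (W.isInternal X) (by simpa using hTh)).symm
    have hcalc : ∀ A B : Module.End W.K (W.H X), Commute A (par (W.isInternal X)) →
        par (W.isInternal X) * (A * (par (W.isInternal X) * B)) = A * B := by
      intro A B hA
      calc par (W.isInternal X) * (A * (par (W.isInternal X) * B)) =
          par (W.isInternal X) * (A * par (W.isInternal X)) * B := by simp only [mul_assoc]
        _ = (par (W.isInternal X) * par (W.isInternal X)) * (A * B) := by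
            rw [hA.eq]; simp only [mul_assoc]
        _ = A * B := by rw [par_mul_par, one_mul]
    have h1 := hnum (par (W.isInternal X) * T) (hOA.cast (hOA.mul hpar hT) (by ring))
    have h2 := hnum (par (W.isInternal X) * F) (hOA.cast (hOA.mul hpar hF) (by ring))
    rw [hcalc T T hTpar, hcalc F T hFpar.symm] at h1
    rw [hcalc T F hTpar, hcalc F F hFpar.symm, LinearMap.trace_mul_comm, ← h1,
      trace_fop_sq, ← squareTrace_eq W hz.1] at h2
    rw [h2, sub_self] at hq
    have : q = 0 := by exact_mod_cast hq.symm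
    rw [this, sub_zero]
  · intro h0
    have hq' : q = 0 := by linarith
    exact fop_mem_of_nilp hOA (W.isInternal X) W_hbd f hT (hnil hq')

/-- **Numerical forms exist exactly if the intersection numbers are rational.** -/
theorem exists_numForm_iff (hS : SignStd W X) {f : ℕ → ℚ} {τ : W.H (X.prod X)}
    (hτ : IsKunnethSum W X f τ) :
    (∃ z, IsNumForm W X τ z) ↔ HasRationalNumbers W (X.prod X) X.dim τ := by
  have hOA := rop_opAlg (W := W) (X := X)
  constructor
  · rintro ⟨z, -, hz⟩ u hu
    exact ⟨_, hz u hu⟩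
  · intro hr
    obtain ⟨T, hT, hnum⟩ := exists_form hOA (W.isInternal X) (par_rop_of_sign hS) f
      (fun y hy => rop_str y hy) (by
        intro y hy
        obtain ⟨u, hu, rfl⟩ := exists_of_rop (p := X.dim) (by simp) hy
        obtain ⟨r, h1⟩ := hr _ (ops.pull_mem (swap X X) hu)
        rw [inter, tr_mul_eq_trace hτ.1, W.cl_pull, map_swap_swap, mul_assoc,
          corr_of_isKunnethSum hτ] at h1
        exact ⟨r, h1⟩)
    obtain ⟨z, hz, rfl⟩ := exists_of_rop (p := X.dim) (by simp) hT
    refine ⟨z, hz, (numRep_iff hz hτ.1).2 ?_⟩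
    rw [corr_of_isKunnethSum hτ]
    exact hnum

lemma exists_kunnethSum (W : WeilCohomology.{u, v} ops) (X : 𝒱.Obj) (f : ℕ → ℚ) :
    ∃ τ, IsKunnethSum W X f τ := by
  obtain ⟨τ, hτ, hτ'⟩ := exists_class_zero (X := X) (p := fop (W.isInternal X) f)
    (isHom_scal _ _)
  exact ⟨τ, hτ, fun j a ha => by rw [hτ', fop_apply _ f ha]⟩

end Pool.Agent.TH19.KM
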