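import Pool.Agent.TH19.KM.C

/-!
# The second moment criterion for the Kunneth conjecture, final form
-/

open CategoryTheory AlgebraicGeometry Finset

universe u v

namespace Pool.Agent.TH19.KM

open Pool.Agent.H914 VarClass Obj WeilCohomology Pool.Agent.H447 Pool.Agent.H578R3.Mom

variable {k : Type u} [Field k] {𝒱 : VarClass k} {ops : CycleOps 𝒱}
  {W : WeilCohomology.{u, v} ops} {X : 𝒱.Obj}

lemma signStd_of_kunnethStd (hK : KunnethStd W X) : SignStd W X :=
  sign_of_kunneth (kunneth_rop hK)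

theorem kunnethStd_iff_moment {f : ℕ → ℚ} (hf : DistinctUpTo X f) {τ : W.H (X.prod X)}
    (hτ : IsKunnethSum W X f τ) :
    KunnethStd W X ↔ SignStd W X ∧
      ∃ z, IsNumForm W X τ z ∧ squareTrace W X z = secondMoment W X f := by
  constructor
  · intro hK
    have hS := signStd_of_kunnethStd hK
    refine ⟨hS, ?_⟩
    obtain ⟨z, hz, hzτ⟩ := (isAlgClass_iff hτ).2 ((kunnethStd_iff hf).1 hK)
    have hform : IsNumForm W X τ z := by
      refine ⟨hz, (numRep_iff hz hτ.1).2 ?_⟩
      rw [hzτ]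
      exact fun _ _ => rfl
    obtain ⟨q, hq, -, hiff⟩ := square_main hS hτ hform
    refine ⟨z, hform, ?_⟩
    rw [hq, hiff.1 ((kunnethStd_iff hf).1 hK)]
  · rintro ⟨hS, z, hform, hz⟩
    obtain ⟨q, hq, -, hiff⟩ := square_main hS hτ hform
    rw [hq] at hz
    exact (kunnethStd_iff hf).2 (hiff.2 (by exact_mod_cast hz))

end Pool.Agent.TH19.KM
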